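import Mathlib
import Pool.Agent.J4H64.SS.Defs

set_option autoImplicit false

/-!
# Project PS (helper63): parallel sparsification and constant-depth circuits for 3-CNF-SAT

Exact statements of the pieces. Circuits: `Circ`, `Circ.WF`, `Circ.Depth`, `Circ.Acc` of
`Pool.Agent.J4H64.SS.Defs` (the format of the frozen statement S15263).
-/

namespace Pool.Agent.J4H63.PS

open Finset Pool.Agent.J4H64.SS

/-! ## Problems and hardness -/

/-- A family of promise problems: inputs are 0/1 vectors indexed by `J n`, with promise `P n`;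
for every parameter `κ : K n` the property `Q n κ` is to be decided. -/
structure Prob where
  J : ℕ → Type
  fin : ∀ n, Fintype (J n)
  K : ℕ → Type
  P : ∀ n, (J n → Bool) → Prop
  Q : ∀ n, K n → (J n → Bool) → Prop

attribute [instance] Prob.fin

/-- Hypothesis H for the problem `p` with the constant `δ`. -/
def Prob.HardAt (p : Prob) (δ : ℝ) : Prop :=
  ∀ d N₀ : ℕ, ∃ n : ℕ, N₀ ≤ n ∧ 1 ≤ n ∧ ∃ κ : p.K n,
    ¬ ∃ C : Circ (p.J n), C.WF ∧ C.Depth d ∧
      ((Fintype.card (p.J n) : ℝ) + (C.m : ℝ) ≤ (2 : ℝ) ^ (δ * (n : ℝ))) ∧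
      ∀ x, p.P n x → (C.Acc x ↔ p.Q n κ x)

/-- Hypothesis H for the problem `p`. -/
def Prob.Hard (p : Prob) : Prop := ∃ δ : ℝ, 0 < δ ∧ p.HardAt δ

/-- `f` is decided by a circuit of depth at most `d` with at most `s` gates. -/
def Cmp {I : Type} (d s : ℕ) (f : (I → Bool) → Prop) : Prop :=
  ∃ C : Circ I, C.WF ∧ C.Depth d ∧ C.m ≤ s ∧ ∀ x, C.Acc x ↔ f x

/-- Reduction of `p` to `q` with at most `2 ^ (η n)` advices, linear growth of the parameter `n`,
every bit computed by circuits of depth `d` and size `(n + 1) ^ a`. -/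
def RedAt (p q : Prob) (η : ℝ) : Prop :=
  ∃ c d a N₁ : ℕ, ∀ n : ℕ, N₁ ≤ n → 1 ≤ n → ∃ N : ℕ, n ≤ N ∧ N ≤ c * n ∧ ∀ κ : p.K n,
    ∃ (A : Type) (_ : Fintype A) (κ' : A → q.K N) (g : A → (p.J n → Bool) → (q.J N → Bool)),
      Nonempty A ∧ (Fintype.card A : ℝ) ≤ (2 : ℝ) ^ (η * (n : ℝ)) ∧
      (∀ (α : A) (j : q.J N), Cmp d ((n + 1) ^ a) (fun x => g α x j = true)) ∧
      ∀ x, p.P n x → (∀ α, q.P N (g α x)) ∧ (p.Q n κ x ↔ ∃ α, q.Q N (κ' α) (g α x))

/-- Polynomially many input bits, at least one (for `n ≥ 2`). -/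
def Prob.Poly (p : Prob) : Prop :=
  ∃ b : ℕ, ∀ n : ℕ, 2 ≤ n → Nonempty (p.J n) ∧ Fintype.card (p.J n) ≤ (n + 1) ^ b

/-! ## Circuits -/

open Classical in
/-- (SUB) substitution of circuits into a circuit. -/
def S_SUB : Prop := ∀ {I J : Type} [Fintype J] (C : Circ J) (d d₁ s : ℕ)
  (g : J → (I → Bool) → Prop), C.WF → C.Depth d → (∀ j, Cmp d₁ s (g j)) →
    Cmp (d + d₁) (C.m + Fintype.card J * s) (fun x => C.Acc (fun j => decide (g j x)))

/-- (GEN) reductions preserve hardness. -/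
def S_GEN : Prop := ∀ (p q : Prob) (δ : ℝ), 0 < δ → p.Poly → q.Poly → RedAt p q (δ / 4) →
  p.HardAt δ → q.Hard

/-- Families of predicates decided by circuits of constant depth and polynomial size. `P n` is an
arbitrary type of parameters. -/
def AC (J P : ℕ → Type) (f : ∀ n, P n → (J n → Bool) → Prop) : Prop :=
  ∃ d a : ℕ, ∀ n : ℕ, 2 ≤ n → ∀ p : P n, Cmp d ((n + 1) ^ a) (f n p)

/-- (ACC) closure properties of `AC`. -/
def S_ACC : Prop :=
  (∀ (J P : ℕ → Type) (c : ∀ n, P n → J n), AC J P (fun n p x => x (c n p) = true)) ∧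
  (∀ (J P : ℕ → Type) (c : ∀ n, P n → Prop), (∀ n, 2 ≤ n → Nonempty (J n)) →
    AC J P (fun n p _ => c n p)) ∧
  (∀ (J P : ℕ → Type) (f : ∀ n, P n → (J n → Bool) → Prop), AC J P f →
    AC J P (fun n p x => ¬ f n p x)) ∧
  (∀ (J P : ℕ → Type) (f g : ∀ n, P n → (J n → Bool) → Prop), AC J P f → AC J P g →
    AC J P (fun n p x => f n p x ∧ g n p x)) ∧
  (∀ (J P : ℕ → Type) (f g : ∀ n, P n → (J n → Bool) → Prop), AC J P f → AC J P g →
    AC J P (fun n p x => f n p x ∨ g n p x)) ∧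
  (∀ (J P Q : ℕ → Type) [∀ n, Fintype (Q n)] [∀ n, Nonempty (Q n)] (b : ℕ)
    (f : ∀ n, P n × Q n → (J n → Bool) → Prop), (∀ n, Fintype.card (Q n) ≤ (n + 1) ^ b) →
    AC J (fun n => P n × Q n) f → AC J P (fun n p x => ∃ q, f n (p, q) x)) ∧
  (∀ (J P Q : ℕ → Type) [∀ n, Fintype (Q n)] [∀ n, Nonempty (Q n)] (b : ℕ)
    (f : ∀ n, P n × Q n → (J n → Bool) → Prop), (∀ n, Fintype.card (Q n) ≤ (n + 1) ^ b) →
    AC J (fun n => P n × Q n) f → AC J P (fun n p x => ∀ q, f n (p, q) x)) ∧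
  (∀ (J P P' : ℕ → Type) (r : ∀ n, P' n → P n) (f : ∀ n, P n → (J n → Bool) → Prop),
    AC J P f → AC J P' (fun n p x => f n (r n p) x))

open Classical in
/-- the number of `v` with `p v` -/
noncomputable def cnt {V : Type} [Fintype V] (p : V → Prop) : ℕ := (univ.filter p).card

/-- (CNTA) at least `k` (a constant) of polynomially many predicates. -/
def S_CNTA : Prop := ∀ (J P Q : ℕ → Type) [∀ n, Fintype (Q n)] [∀ n, Nonempty (Q n)] (b k : ℕ)
    (f : ∀ n, P n × Q n → (J n → Bool) → Prop), (∀ n, 2 ≤ n → Nonempty (J n)) →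
    (∀ n, Fintype.card (Q n) ≤ (n + 1) ^ b) →
    AC J (fun n => P n × Q n) f → AC J P (fun n p x => k ≤ cnt (fun q : Q n => f n (p, q) x))

/-! ## The combinatorial core -/

/-- A hypergraph with edges of size one, two, three. -/
structure Hg (V : Type) where
  u : V → Prop
  e : V → V → Prop
  t : V → V → V → Prop

/-- the edges are sets: symmetry and distinctness -/
def Hg.Ok {V : Type} (H : Hg V) : Prop :=
  (∀ x y, H.e x y → H.e y x ∧ x ≠ y) ∧
  ∀ x y z, H.t x y z → H.t y x z ∧ H.t x z y ∧ x ≠ y ∧ x ≠ z ∧ y ≠ z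

/-- `I` contains no edge. -/
def Hg.Ind {V : Type} (H : Hg V) (I : Finset V) : Prop :=
  (∀ x ∈ I, ¬ H.u x) ∧ (∀ x ∈ I, ∀ y ∈ I, ¬ H.e x y) ∧
    ∀ x ∈ I, ∀ y ∈ I, ∀ z ∈ I, ¬ H.t x y z

/-- the constants -/
def cD (k : ℕ) : ℕ := 4 * k ^ 3
def cE (k : ℕ) : ℕ := 2 * k ^ 3 + 2 * k ^ 4 * cD k + 1
def cB (k : ℕ) : ℕ := k * cE k * cD k

section Sparse

variable {V : Type} [Fintype V] (k : ℕ) (A : Fin 7 → Finset V) (H : Hg V)

/-- true by the sets `A 0`, `A 1` of false vertices, or by advice -/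
def Zz (x : V) : Prop := (∃ a ∈ A 0, ∃ b ∈ A 1, H.t a b x) ∨ x ∈ A 2

/-- the vertices of the first level -/
def V1 (x : V) : Prop := ¬ Zz A H x ∧ x ∉ A 3

/-- pairs of large codegree -/
def E1 (x y : V) : Prop :=
  V1 A H x ∧ V1 A H y ∧ x ≠ y ∧ cD k < cnt (fun z => V1 A H z ∧ H.t x y z)

/-- the triples of the first level -/
def T2 (x y z : V) : Prop :=
  H.t x y z ∧ V1 A H x ∧ V1 A H y ∧ V1 A H z ∧ ¬ E1 k A H x y ∧ ¬ E1 k A H y z ∧ ¬ E1 k A H x z

/-- pairs implied by the false vertices in `A 5` -/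
def ET (y z : V) : Prop := ∃ x ∈ A 5, T2 k A H x y z

/-- the vertices of the second level -/
def V2 (y : V) : Prop := V1 A H y ∧ y ∉ A 4 ∧ cnt (fun z => ET k A H y z) < cE k

/-- saturated vertices -/
def Uu (y : V) : Prop := V1 A H y ∧ y ∉ A 4 ∧ cE k ≤ cnt (fun z => ET k A H y z)

/-- vertices with many triples -/
def Ww (x : V) : Prop := V2 k A H x ∧ x ∉ A 5 ∧
  cB k < cnt (fun p : V × V => V2 k A H p.1 ∧ V2 k A H p.2 ∧ T2 k A H x p.1 p.2 ∧
    ¬ ET k A H p.1 p.2)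

/-- all pairs -/
def Ee (x y : V) : Prop :=
  H.e x y ∨ E1 k A H x y ∨ ∃ w, (w ∈ A 3 ∨ w ∈ A 4 ∨ w ∈ A 5) ∧ H.t w x y

/-- neighbours of the false vertices in `A 6` -/
def Z4 (z : V) : Prop := ∃ x ∈ A 6, Ee k A H x z

/-- vertices with many pairs -/
def U4 (x : V) : Prop := x ∉ A 6 ∧ k < cnt (fun z => Ee k A H x z ∧ ¬ Z4 k A H z)

/-- The sparse hypergraph computed with the advice `A`. -/
def spu (x : V) : Prop :=
  H.u x ∨ Zz A H x ∨ Uu k A H x ∨ Ww k A H x ∨ Z4 k A H x ∨ U4 k A H x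

def spe (x y : V) : Prop := Ee k A H x y ∧ ¬ spu k A H x ∧ ¬ spu k A H y

def spt (x y z : V) : Prop :=
  T2 k A H x y z ∧ (V2 k A H x ∧ V2 k A H y ∧ V2 k A H z) ∧
    (¬ ET k A H x y ∧ ¬ ET k A H y z ∧ ¬ ET k A H x z) ∧
    (x ∉ A 5 ∧ y ∉ A 5 ∧ z ∉ A 5) ∧ ¬ spu k A H x ∧ ¬ spu k A H y ∧ ¬ spu k A H z

def sp : Hg V := ⟨spu k A H, spe k A H, spt k A H⟩

end Sparse

/-- (OK) the sparse hypergraph is a hypergraph. -/
def S_OK : Prop := ∀ {V : Type} [Fintype V] (k : ℕ) (A : Fin 7 → Finset V) (H : Hg V), H.Ok →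
  (sp k A H).Ok

/-- (SND) every edge contains an edge of the sparse hypergraph. -/
def S_SND : Prop := ∀ {V : Type} [Fintype V] (k : ℕ) (A : Fin 7 → Finset V) (H : Hg V), H.Ok →
  (∀ x, H.u x → spu k A H x) ∧
  (∀ x y, H.e x y → spu k A H x ∨ spu k A H y ∨ spe k A H x y) ∧
  ∀ x y z, H.t x y z → spu k A H x ∨ spu k A H y ∨ spu k A H z ∨ spe k A H x y ∨
    spe k A H y z ∨ spe k A H x z ∨ spt k A H x y z

/-- (BND) the sparse hypergraph has bounded degrees. -/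
def S_BND : Prop := ∀ {V : Type} [Fintype V] (k : ℕ) (A : Fin 7 → Finset V) (H : Hg V), H.Ok →
  ∀ x, cnt (fun y => spe k A H x y) ≤ k ∧ cnt (fun p : V × V => spt k A H x p.1 p.2) ≤ cB k

/-- (COR) every independent set is independent in a sparse hypergraph with small advice. -/
def S_COR : Prop := ∀ {V : Type} [Fintype V] (k : ℕ) (H : Hg V) (I : Finset V), 1 ≤ k → H.Ok →
  H.Ind I → ∃ A : Fin 7 → Finset V, (∀ i, k * (A i).card ≤ Fintype.card V) ∧ (sp k A H).Ind I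

/-- (NUM) the number of advices. -/
def S_NUM : Prop := ∀ η : ℝ, 0 < η → ∃ k : ℕ, 1 ≤ k ∧ ∀ n : ℕ, 1 ≤ n →
  (Fintype.card {A : Fin 7 → Finset (Fin n × Bool) //
    ∀ i, k * (A i).card ≤ Fintype.card (Fin n × Bool)} : ℝ) ≤ (2 : ℝ) ^ (η * (n : ℝ))

/-! ## Formulas -/

theorem card_pair {V : Type} [DecidableEq V] (x y : V) : ({x, y} : Finset V).card ≤ 3 :=
  (card_le_two).trans (by norm_num)

/-- the hypergraph of a formula: the vertices are the literals; a literal in an independent set is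
false -/
def hg {n : ℕ} (F : Cl n → Bool) : Hg (Fin n × Bool) where
  u x := F ⟨{x}, by simp⟩ = true ∨ F ⟨∅, by simp⟩ = true
  e x y := x ≠ y ∧ F ⟨{x, y}, card_pair x y⟩ = true
  t x y z := x ≠ y ∧ x ≠ z ∧ y ≠ z ∧ F ⟨{x, y, z}, card_le_three⟩ = true

/-- the clauses given by a hypergraph on the literals -/
def Fo {n : ℕ} (H : Hg (Fin n × Bool)) (c : Cl n) : Prop :=
  (∃ x, H.u x ∧ c.1 = {x}) ∨ (∃ x y, H.e x y ∧ c.1 = {x, y}) ∨
    ∃ x y z, H.t x y z ∧ c.1 = {x, y, z}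

/-- (PHI) the sparse formula is computed by circuits of constant depth and polynomial size. -/
def S_PHI : Prop := ∀ k : ℕ, ∃ d a : ℕ, ∀ n : ℕ, 2 ≤ n → ∀ (A : Fin 7 → Finset (Fin n × Bool))
  (c : Cl n), Cmp d ((n + 1) ^ a) (fun F : Cl n → Bool => Fo (sp k A (hg F)) c)

/-! ## The problems -/

/-- 3-CNF-SAT. -/
def SAT : Prob where
  J n := Cl n
  fin n := inferInstance
  K _ := Unit
  P _ _ := True
  Q _ _ x := Sat x

open Classical in
/-- 3-CNF-SAT for formulas without the empty clause in which each variable occurs in at most `B`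
clauses. -/
def SATB (B : ℕ) : Prob where
  J n := Cl n
  fin n := inferInstance
  K _ := Unit
  P n x := (∀ c : Cl n, x c = true → c.1.Nonempty) ∧
    ∀ v : Fin n, cnt (fun c : Cl n => x c = true ∧ ∃ b, (v, b) ∈ c.1) ≤ B
  Q _ _ x := Sat x

/-- the pairs of different vertices -/
abbrev Pr (n : ℕ) : Type := {p : Fin n × Fin n // p.1 < p.2}

/-- adjacency in the graph with the adjacency bits `x` -/
def Adj {n : ℕ} (x : Pr n → Bool) (u v : Fin n) : Prop :=
  (∃ h : u < v, x ⟨(u, v), h⟩ = true) ∨ ∃ h : v < u, x ⟨(v, u), h⟩ = true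

/-- the graph has an independent set with `κ` vertices -/
def HasInd {n : ℕ} (κ : ℕ) (x : Pr n → Bool) : Prop :=
  ∃ S : Finset (Fin n), κ ≤ S.card ∧ ∀ u ∈ S, ∀ v ∈ S, ¬ Adj x u v

/-- Independent Set on all graphs (the threshold is a parameter). -/
def IS : Prob where
  J n := Pr n
  fin n := inferInstance
  K _ := ℕ
  P _ _ := True
  Q _ κ x := HasInd κ x

/-- Independent Set on graphs of maximum degree at most `D`. -/
def ISD (D : ℕ) : Prob where
  J n := Pr n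
  fin n := inferInstance
  K _ := ℕ
  P n x := ∀ u : Fin n, cnt (fun v => Adj x u v) ≤ D
  Q _ κ x := HasInd κ x

/-! ## The reductions -/

/-- (SP) sparsification -/
def S_SP : Prop := ∀ η : ℝ, 0 < η → ∃ B : ℕ, RedAt SAT (SATB B) η

/-- (SPA) sparsification from the pieces -/
def S_SPA : Prop := S_PHI → S_OK → S_SND → S_BND → S_COR → S_NUM → S_SP

/-- (OC) three occurrences -/
def S_OC : Prop := ∀ (B : ℕ) (η : ℝ), 0 < η → RedAt (SATB B) (SATB 3) η

/-- (IS3) Independent Set on graphs of maximum degree three -/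
def S_IS3 : Prop := ∀ (B : ℕ) (η : ℝ), 0 < η → RedAt (SATB B) (ISD 3) η

/-- (BK) Independent Set reduces to 3-CNF-SAT -/
def S_BK : Prop := ∀ η : ℝ, 0 < η → RedAt IS SAT η

/-- input bits -/
def S_POL : Prop := SAT.Poly ∧ (∀ B, (SATB B).Poly) ∧ IS.Poly ∧ ∀ D, (ISD D).Poly

/-- (FIN) the theorem -/
def S_FIN : Prop := List.TFAE [SAT.Hard, ∃ B, (SATB B).Hard, (SATB 3).Hard, (ISD 3).Hard, IS.Hard]

end Pool.Agent.J4H63.PS
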